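import Mathlib

set_option autoImplicit false

/-!
# MP_f0af69_co: chordal graphs

Every finite chordal graph `G` is proper conflict-free (Δ+1)-choosable, in particular
`χ_pcf(G) ≤ Δ(G) + 1`. More precisely, lists that are longer than the degree of every neighbour
suffice.
-/

namespace Pool.Agent.Results.MP_f0af69_co.ChordalGraphs

/-- `φ` is a proper conflict-free `L`-colouring of `G`: colours come from the lists, adjacent
vertices have different colours, and for every vertex `v` with at least one neighbour some colour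
is used by exactly one neighbour of `v`. -/
def IsPCFListColouring {V C : Type*} (G : SimpleGraph V) (L : V → Finset C) (φ : V → C) : Prop :=
  (∀ v, φ v ∈ L v) ∧ (∀ u v, G.Adj u v → φ u ≠ φ v) ∧
    ∀ v, (∃ u, G.Adj v u) → ∃ c, ∃! u, G.Adj v u ∧ φ u = c

/-- A graph is chordal if it has a perfect elimination ordering: an injective numbering `σ` of its
vertices such that the neighbours of a vertex with larger numbers are pairwise adjacent. -/
def IsChordal {V : Type*} (G : SimpleGraph V) : Prop :=
  ∃ σ : V → ℕ, Function.Injective σ ∧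
    ∀ a c d, σ a < σ c → σ a < σ d → c ≠ d → G.Adj a c → G.Adj a d → G.Adj c d

/-- Greedy list colouring: if every vertex has to avoid the colours of fewer earlier vertices than
its list has colours, there is a colouring. -/
theorem greedy {V C : Type*} [Finite V] (r : V → ℕ) (D : V → Finset V) (L : V → Finset C)
    (hD : ∀ w, ∀ d ∈ D w, r d < r w) (hL : ∀ w, (D w).card < (L w).card) :
    ∃ φ : V → C, ∀ w, φ w ∈ L w ∧ ∀ d ∈ D w, φ w ≠ φ d := by
  classical
  have key : ∀ n : ℕ, ∃ φ : V → C, ∀ w, r w < n → φ w ∈ L w ∧ ∀ d ∈ D w, φ w ≠ φ d := by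
    intro n
    induction n with
    | zero =>
      refine ⟨fun w => (Finset.card_pos.1 (lt_of_le_of_lt (Nat.zero_le _) (hL w))).choose, ?_⟩
      intro w hw
      exact absurd hw (Nat.not_lt_zero _)
    | succ n ih =>
      obtain ⟨φ, hφ⟩ := ih
      have hch : ∀ w, ∃ c, c ∈ L w ∧ ∀ d ∈ D w, c ≠ φ d := by
        intro w
        have h1 : ((D w).image φ).card < (L w).card :=
          lt_of_le_of_lt Finset.card_image_le (hL w)
        obtain ⟨c, hc, hc'⟩ := Finset.exists_mem_notMem_of_card_lt_card h1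
        refine ⟨c, hc, fun d hd h => hc' ?_⟩
        rw [h]
        exact Finset.mem_image_of_mem φ hd
      choose g hg hg' using hch
      refine ⟨fun w => if r w = n then g w else φ w, fun w hw => ?_⟩
      have hd : ∀ d ∈ D w, r d ≠ n := fun d hd => by
        have := hD w d hd
        omega
      by_cases h : r w = n
      · refine ⟨by simpa [h] using hg w, fun d hdd => ?_⟩
        simpa [h, hd d hdd] using hg' w d hdd
      · have hlt : r w < n := by omega
        refine ⟨by simpa [h] using (hφ w hlt).1, fun d hdd => ?_⟩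
        simpa [h, hd d hdd] using (hφ w hlt).2 d hdd
  cases nonempty_fintype V
  obtain ⟨φ, hφ⟩ := key ((Finset.univ.sup r) + 1)
  exact ⟨φ, fun w => hφ w (Nat.lt_succ_of_le (Finset.le_sup (Finset.mem_univ w)))⟩

/-- **Chordal graphs are proper conflict-free (Δ+1)-choosable.** Let `G` be a finite chordal graph
and `L` an assignment of nonempty lists such that `deg u < |L v|` for all adjacent `v`, `u` (for
example, lists with at least `Δ(G) + 1` colours). Then `G` has a proper conflict-free
`L`-colouring. -/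
theorem result {V C : Type} [Fintype V] [DecidableEq V] (G : SimpleGraph V)
    [DecidableRel G.Adj] (hG : IsChordal G) (L : V → Finset C) (hL0 : ∀ v, (L v).Nonempty)
    (hL : ∀ v u, G.Adj v u → G.degree u < (L v).card) :
    ∃ φ : V → C, IsPCFListColouring G L φ := by
  classical
  obtain ⟨σ, hσ, h1⟩ := hG
  -- later neighbours in the elimination ordering, which are coloured first
  let Q : V → Finset V := fun w => Finset.univ.filter (fun q => G.Adj w q ∧ σ w < σ q)
  have hQ : ∀ w q, q ∈ Q w ↔ G.Adj w q ∧ σ w < σ q := fun w q => by simp [Q]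
  have htri : ∀ a b : V, a ≠ b → σ a < σ b ∨ σ b < σ a := fun a b h =>
    lt_or_gt_of_ne (fun h' => h (hσ h'))
  have hQclq : ∀ w q q', q ∈ Q w → q' ∈ Q w → q ≠ q' → G.Adj q q' := by
    intro w q q' hq hq' hne
    rw [hQ] at hq hq'
    exact h1 w q q' hq.2 hq'.2 hne hq.1 hq'.1
  -- witnesses
  have hf : ∀ y, ∃ z, (∃ u, G.Adj y u) → G.Adj y z ∧ ((Q y).Nonempty → z ∈ Q y) ∧
      (¬ (Q y).Nonempty → ∀ u, G.Adj y u → u ≠ z → σ u < σ z) := by
    intro y
    by_cases hy : ∃ u, G.Adj y u
    swap
    · exact ⟨y, fun h => absurd h hy⟩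
    by_cases hne : (Q y).Nonempty
    · obtain ⟨a, ha⟩ := hne
      exact ⟨a, fun _ => ⟨((hQ y a).1 ha).1, fun _ => ha, fun h => absurd ⟨a, ha⟩ h⟩⟩
    · let N : Finset V := Finset.univ.filter (fun u => G.Adj y u)
      have hN : ∀ u, u ∈ N ↔ G.Adj y u := fun u => by simp [N]
      obtain ⟨u0, hu0⟩ := hy
      obtain ⟨z, hz, hmax⟩ := N.exists_max_image σ ⟨u0, (hN u0).2 hu0⟩
      refine ⟨z, fun _ => ⟨(hN z).1 hz, fun h => absurd h hne, fun _ u hu huz => ?_⟩⟩
      exact lt_of_le_of_ne (hmax u ((hN u).2 hu)) (fun h => huz (hσ h))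
  choose f hf using hf
  -- constraints
  let D : V → Finset V := fun w => (Q w ∪ (Q w).image f).filter (fun d => σ w < σ d)
  have hD : ∀ w d, d ∈ D w ↔ (d ∈ Q w ∨ ∃ q ∈ Q w, f q = d) ∧ σ w < σ d := fun w d => by
    simp [D]
  have hcard : ∀ w, (D w).card < (L w).card := by
    intro w
    by_cases hne : (Q w).Nonempty
    · -- all constraints are closed neighbours of the first coloured neighbour `m` of `w`
      obtain ⟨m, hm, hmax⟩ := (Q w).exists_max_image σ hne
      obtain ⟨hwm, hlt⟩ := (hQ w m).1 hm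
      have hsub : D w ⊆ (insert m (G.neighborFinset m)).erase w := by
        intro d hd
        rw [hD] at hd
        refine Finset.mem_erase.2 ⟨fun h => ?_, ?_⟩
        · rw [h] at hd; exact absurd hd.2 (lt_irrefl _)
        rw [Finset.mem_insert, SimpleGraph.mem_neighborFinset]
        rcases hd.1 with h | ⟨q, hq, rfl⟩
        · by_cases hdm : d = m
          · exact Or.inl hdm
          · exact Or.inr (hQclq w m d hm h (fun h' => hdm h'.symm))
        · by_cases hqm : q = m
          · rw [hqm]; exact Or.inr (hf m ⟨w, hwm.symm⟩).1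
          · have hadj : G.Adj q m := hQclq w q m hq hm hqm
            have hlt' : σ q < σ m := lt_of_le_of_ne (hmax q hq) (fun h => hqm (hσ h))
            have hmQ : m ∈ Q q := (hQ q m).2 ⟨hadj, hlt'⟩
            have hfq : f q ∈ Q q := (hf q ⟨m, hadj⟩).2.1 ⟨m, hmQ⟩
            by_cases hfm : f q = m
            · exact Or.inl hfm
            · exact Or.inr (hQclq q m (f q) hmQ hfq (fun h' => hfm h'.symm))
      have hmem : w ∈ insert m (G.neighborFinset m) :=
        Finset.mem_insert_of_mem ((G.mem_neighborFinset m w).2 hwm.symm)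
      have h2 := Finset.card_le_card hsub
      rw [Finset.card_erase_of_mem hmem, Finset.card_insert_of_notMem (by simp),
        SimpleGraph.card_neighborFinset_eq_degree] at h2
      have h3 := hL w m hwm
      omega
    · have hem : Q w = ∅ := Finset.not_nonempty_iff_eq_empty.1 hne
      have : D w = ∅ := by
        rw [Finset.eq_empty_iff_forall_notMem]
        intro d hd
        rw [hD] at hd
        rcases hd.1 with h | ⟨q, hq, _⟩
        · rw [hem] at h; simp at h
        · rw [hem] at hq; simp at hq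
      rw [this, Finset.card_empty]
      exact Finset.card_pos.2 (hL0 w)
  -- the colouring
  obtain ⟨N, hN⟩ : ∃ N, ∀ v, σ v ≤ N := ⟨Finset.univ.sup σ, fun v =>
    Finset.le_sup (Finset.mem_univ v)⟩
  obtain ⟨φ, hφ⟩ := greedy (fun v => N - σ v) D L (fun w d hd => by
      have h3 := ((hD w d).1 hd).2
      have h4 := hN d
      show N - σ d < N - σ w
      omega) hcard
  have hproper : ∀ u v, G.Adj u v → φ u ≠ φ v := by
    intro u v huv
    rcases htri u v huv.ne with h | h
    · exact (hφ u).2 v ((hD u v).2 ⟨Or.inl ((hQ u v).2 ⟨huv, h⟩), h⟩)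
    · exact ((hφ v).2 u ((hD v u).2 ⟨Or.inl ((hQ v u).2 ⟨huv.symm, h⟩), h⟩)).symm
  refine ⟨φ, fun v => (hφ v).1, hproper, ?_⟩
  intro x hx
  obtain ⟨hxz, hz1, hz2⟩ := hf x hx
  refine ⟨φ (f x), f x, ⟨hxz, rfl⟩, ?_⟩
  rintro u ⟨hxu, hu⟩
  by_contra hne
  by_cases hQx : (Q x).Nonempty
  · have hzQ := hz1 hQx
    rcases htri u x hxu.ne.symm with h | h
    · have hxQ : x ∈ Q u := (hQ u x).2 ⟨hxu.symm, h⟩
      exact (hφ u).2 (f x) ((hD u (f x)).2 ⟨Or.inr ⟨x, hxQ, rfl⟩,
        lt_trans h ((hQ x (f x)).1 hzQ).2⟩) hu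
    · exact hproper u (f x) (hQclq x u (f x) ((hQ x u).2 ⟨hxu, h⟩) hzQ hne) hu
  · have hlt := hz2 hQx u hxu hne
    have h : σ u < σ x := by
      rcases htri u x hxu.ne.symm with h | h
      · exact h
      · exact absurd ⟨u, (hQ x u).2 ⟨hxu, h⟩⟩ hQx
    have hxQ : x ∈ Q u := (hQ u x).2 ⟨hxu.symm, h⟩
    exact (hφ u).2 (f x) ((hD u (f x)).2 ⟨Or.inr ⟨x, hxQ, rfl⟩, hlt⟩) hu

end Pool.Agent.Results.MP_f0af69_co.ChordalGraphs
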